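import Mathlib
import Pool.Agent.Lib.MP_e2957e_co.Core

set_option autoImplicit false

open scoped Nat

namespace Pool.Agent.Results.MP_e2957e_co.FarFromCosetUnions

/-- The transposition graph on the symmetric group `S_n`: `σ` and `τ` are adjacent iff
`τ = σ ∘ (i j)` for some transposition `(i j)`. -/
def transpositionGraph (n : ℕ) : SimpleGraph (Equiv.Perm (Fin n)) where
  Adj σ τ := ∃ i j : Fin n, i ≠ j ∧ τ = σ * Equiv.swap i j
  symm := ⟨by
    rintro σ τ ⟨i, j, hij, rfl⟩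
    exact ⟨i, j, hij, by rw [mul_assoc, Equiv.swap_mul_self, mul_one]⟩⟩
  loopless := ⟨by
    rintro σ ⟨i, j, hij, h⟩
    have h1 : Equiv.swap i j = 1 := (mul_eq_left.mp h.symm)
    exact hij (Equiv.swap_eq_one_iff.mp h1)⟩

/-- The edge boundary of `A`: the edges of the transposition graph with one endpoint in `A` and
one endpoint outside `A`. -/
def edgeBoundary {n : ℕ} (A : Finset (Equiv.Perm (Fin n))) : Set (Sym2 (Equiv.Perm (Fin n))) :=
  {e | e ∈ (transpositionGraph n).edgeSet ∧ ∃ σ ∈ A, ∃ τ, τ ∉ A ∧ e = s(σ, τ)}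

/-- The 1-coset `T_ij`. -/
def oneCoset {n : ℕ} (i j : Fin n) : Set (Equiv.Perm (Fin n)) := {σ | σ i = j}

/-- `B` is a union of at most `c` 1-cosets. -/
def IsCosetUnion {n : ℕ} (c : ℕ) (B : Finset (Equiv.Perm (Fin n))) : Prop :=
  ∃ P : Finset (Fin n × Fin n), P.card ≤ c ∧
    (B : Set (Equiv.Perm (Fin n))) = ⋃ p ∈ P, oneCoset p.1 p.2

open Pool.Agent.Lib.MP_e2957e_co

lemma boundary_le {n : ℕ} (A : Finset (Equiv.Perm (Fin n))) :
    (edgeBoundary A).ncard ≤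
      ((A ×ˢ (Finset.univ.filter (fun p : Fin n × Fin n => p.1 < p.2))).filter
        (fun x => x.1 * Equiv.swap x.2.1 x.2.2 ∉ A)).card := by
  classical
  set T := (A ×ˢ (Finset.univ.filter (fun p : Fin n × Fin n => p.1 < p.2))).filter
        (fun x => x.1 * Equiv.swap x.2.1 x.2.2 ∉ A) with hT
  have hsub : edgeBoundary A ⊆
      ((T.image (fun x => s(x.1, x.1 * Equiv.swap x.2.1 x.2.2)) :
        Finset (Sym2 (Equiv.Perm (Fin n)))) : Set (Sym2 (Equiv.Perm (Fin n)))) := by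
    rintro e ⟨he, σ, hσ, τ, hτ, rfl⟩
    rw [SimpleGraph.mem_edgeSet] at he
    obtain ⟨i, j, hij, rfl⟩ := he
    rw [Finset.mem_coe, Finset.mem_image]
    rcases lt_or_gt_of_ne hij with h | h
    · refine ⟨(σ, (i, j)), ?_, rfl⟩
      rw [hT, Finset.mem_filter, Finset.mem_product, Finset.mem_filter]
      exact ⟨⟨hσ, Finset.mem_univ _, h⟩, hτ⟩
    · refine ⟨(σ, (j, i)), ?_, ?_⟩
      · rw [hT, Finset.mem_filter, Finset.mem_product, Finset.mem_filter]
        refine ⟨⟨hσ, Finset.mem_univ _, h⟩, ?_⟩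
        rw [Equiv.swap_comm]
        exact hτ
      · simp only
        rw [Equiv.swap_comm]
  calc (edgeBoundary A).ncard ≤ ((T.image (fun x => s(x.1, x.1 * Equiv.swap x.2.1 x.2.2)) :
        Finset (Sym2 (Equiv.Perm (Fin n)))) : Set (Sym2 (Equiv.Perm (Fin n)))).ncard :=
        Set.ncard_le_ncard hsub (Finset.finite_toSet _)
    _ = (T.image (fun x => s(x.1, x.1 * Equiv.swap x.2.1 x.2.2))).card :=
        Set.ncard_coe_finset _
    _ ≤ T.card := Finset.card_image_le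

/-- The explicit example, for `n = m + 3`. -/
lemma example_props (m : ℕ) :
    (Aset m).card = (m + 1) * (m + 2)! ∧
    ((edgeBoundary (Aset m)).ncard : ℝ) ≤
      (Aset m).card * (((m + 3)! : ℕ) - (Aset m).card : ℝ) / ((m + 2)! : ℕ)
        + 2 / (((m : ℝ) + 3) * ((m : ℝ) + 1)) * ((m : ℝ) + 3) * (Aset m).card ∧
    ∀ B : Finset (Equiv.Perm (Fin (m + 3))), IsCosetUnion (m + 1) B →
      (m + 1) * (m + 1)! ≤ (symmDiff (Aset m) B).card := by
  refine ⟨card_A m, ?_, ?_⟩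
  · have h1 : ((edgeBoundary (Aset m)).ncard : ℝ) ≤
        2 * ((Aset m).card : ℝ) + 2 * ((m + 2)! : ℕ) := by
      exact_mod_cast (boundary_le (Aset m)).trans (boundary m)
    refine h1.trans (le_of_eq ?_)
    have hA := card_A m
    have hfpos : (0 : ℝ) < ((m + 2)! : ℕ) := by exact_mod_cast Nat.factorial_pos (m + 2)
    have hf3 : (((m + 3)! : ℕ) : ℝ) = ((m : ℝ) + 3) * ((m + 2)! : ℕ) := by
      rw [Nat.factorial_succ]; push_cast; ring
    have hAr : ((Aset m).card : ℝ) = ((m : ℝ) + 1) * ((m + 2)! : ℕ) := by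
      rw [hA]; push_cast; ring
    rw [hf3, hAr]
    field_simp
    ring
  · rintro B ⟨P, hP, hB⟩
    have hBeq : B = Finset.univ.filter (fun σ : Equiv.Perm (Fin (m + 3)) =>
        ∃ p ∈ P, σ p.1 = p.2) := by
      ext σ
      have : σ ∈ (B : Set (Equiv.Perm (Fin (m + 3)))) ↔ σ ∈ ⋃ p ∈ P, oneCoset p.1 p.2 := by
        rw [hB]
      rw [Finset.mem_coe] at this
      rw [this]
      simp only [Set.mem_iUnion, oneCoset, Set.mem_ofPred_eq, exists_prop, Finset.mem_filter,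
        Finset.mem_univ, true_and]
    rw [hBeq]
    exact far m P hP

lemma explicit (n : ℕ) (hn : 3 ≤ n) : ∃ (δ : ℝ) (A : Finset (Equiv.Perm (Fin n))),
      δ = 2 / (n * ((n : ℝ) - 2)) ∧
      A.card = (n - 2) * (n - 1)! ∧
      ((edgeBoundary A).ncard : ℝ) ≤ A.card * ((n ! : ℕ) - A.card : ℝ) / ((n - 1)! : ℕ)
        + δ * n * A.card ∧
      ∀ B : Finset (Equiv.Perm (Fin n)), IsCosetUnion (n - 2) B →
        (n : ℝ) * (n - 2) / (2 * (n - 1)) * ((n - 2 : ℕ) * δ * ((n - 1)! : ℕ))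
          ≤ (symmDiff A B).card := by
  obtain ⟨m, rfl⟩ : ∃ m, n = m + 3 := ⟨n - 3, by omega⟩
  obtain ⟨h1, h2, h3⟩ := example_props m
  have e1 : m + 3 - 1 = m + 2 := rfl
  have e2 : m + 3 - 2 = m + 1 := rfl
  rw [e1, e2]
  have hm0 : (0 : ℝ) ≤ (m : ℝ) := Nat.cast_nonneg m
  have c1 : (((m + 3 : ℕ) : ℝ) - 2) = (m : ℝ) + 1 := by push_cast; ring
  have c2 : (((m + 3 : ℕ) : ℝ) - 1) = (m : ℝ) + 2 := by push_cast; ring
  have c3 : ((m + 3 : ℕ) : ℝ) = (m : ℝ) + 3 := by push_cast; ring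
  refine ⟨2 / (((m + 3 : ℕ) : ℝ) * (((m + 3 : ℕ) : ℝ) - 2)), Aset m, rfl, h1, ?_, ?_⟩
  · rw [c1, c3]
    exact h2
  · intro B hB
    have h4 : (((m + 1) * (m + 1)! : ℕ) : ℝ) ≤ (symmDiff (Aset m) B).card := by
      exact_mod_cast h3 B hB
    refine le_trans (le_of_eq ?_) h4
    rw [c1, c2, c3]
    have hf2 : (((m + 2)! : ℕ) : ℝ) = ((m : ℝ) + 2) * ((m + 1)! : ℕ) := by
      rw [Nat.factorial_succ]; push_cast; ring
    rw [hf2]
    push_cast
    field_simp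

/-- First part: the negated form of the question (for every constant `C` the stability statement
fails). Second part: an explicit example for every `n ≥ 3`, with `c = n - 2`, `δ = 2/(n(n-2))`; it
shows that a constant which works for this `n` is at least `n(n-2)/(2(n-1))`. -/
theorem result :
    (∀ C : ℝ, ∃ (n c : ℕ) (δ : ℝ) (A : Finset (Equiv.Perm (Fin n))), 3 ≤ n ∧ 0 < δ ∧
      A.card = c * (n - 1)! ∧
      ((edgeBoundary A).ncard : ℝ) ≤ A.card * ((n ! : ℕ) - A.card : ℝ) / ((n - 1)! : ℕ)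
        + δ * n * A.card ∧
      ∀ B : Finset (Equiv.Perm (Fin n)), IsCosetUnion c B →
        C * (c * δ * ((n - 1)! : ℕ)) < (symmDiff A B).card) ∧
    ∀ n : ℕ, 3 ≤ n → ∃ (δ : ℝ) (A : Finset (Equiv.Perm (Fin n))),
      δ = 2 / (n * ((n : ℝ) - 2)) ∧
      A.card = (n - 2) * (n - 1)! ∧
      ((edgeBoundary A).ncard : ℝ) ≤ A.card * ((n ! : ℕ) - A.card : ℝ) / ((n - 1)! : ℕ)
        + δ * n * A.card ∧
      ∀ B : Finset (Equiv.Perm (Fin n)), IsCosetUnion (n - 2) B →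
        (n : ℝ) * (n - 2) / (2 * (n - 1)) * ((n - 2 : ℕ) * δ * ((n - 1)! : ℕ))
          ≤ (symmDiff A B).card := by
  refine ⟨?_, explicit⟩
  intro C
  obtain ⟨m, hm⟩ := exists_nat_gt (2 * C)
  obtain ⟨δ, A, hδ, h1, h2, h3⟩ := explicit (m + 3) (by omega)
  have hm0 : (0 : ℝ) ≤ (m : ℝ) := Nat.cast_nonneg m
  have c1 : (((m + 3 : ℕ) : ℝ) - 2) = (m : ℝ) + 1 := by push_cast; ring
  have c2 : (((m + 3 : ℕ) : ℝ) - 1) = (m : ℝ) + 2 := by push_cast; ring
  have c3 : ((m + 3 : ℕ) : ℝ) = (m : ℝ) + 3 := by push_cast; ring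
  have hδ0 : 0 < δ := by
    rw [hδ, c1, c3]
    positivity
  refine ⟨m + 3, m + 3 - 2, δ, A, by omega, hδ0, h1, h2, ?_⟩
  intro B hB
  refine lt_of_lt_of_le ?_ (h3 B hB)
  have hpos : (0 : ℝ) < ((m + 3 - 2 : ℕ) : ℝ) * δ * ((m + 3 - 1)! : ℕ) := by
    have : (0 : ℝ) < ((m + 3 - 2 : ℕ) : ℝ) := by
      have : 0 < m + 3 - 2 := by omega
      exact_mod_cast this
    have h5 : (0 : ℝ) < ((m + 3 - 1)! : ℕ) := by exact_mod_cast Nat.factorial_pos _
    positivity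
  refine mul_lt_mul_of_pos_right ?_ hpos
  rw [c1, c2, c3, lt_div_iff₀ (by positivity)]
  nlinarith

end Pool.Agent.Results.MP_e2957e_co.FarFromCosetUnions
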